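import Mathlib

/-!
# Almost symmetric numerical semigroups of embedding dimension eight have unbounded type

For `k = 2n`, `n ≥ 1`, let `a = 2k²+2`, `u = k-1`, `v = k+1`, `q = k²+1` and let `S` be generated by
the eight numbers `k (a + ε₁ u + ε₂ v) + ε₃ q`, `ε₁, ε₂, ε₃ ∈ {0, 1}`.  We show that `S` is an almost
symmetric numerical semigroup of embedding dimension `8` and type `2k+1 = 4n+1`.
-/

set_option autoImplicit false

open scoped Pointwise

namespace Pool.Agent.Results.MP_9b7a67_al.UnboundedTypeEightGenerators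

/-! ### The definitions used in the statement -/

/-- The elements of the submonoid `S` of `ℕ`, as a set of integers. -/
def intSet (S : AddSubmonoid ℕ) : Set ℤ := {x | ∃ m ∈ S, (m : ℤ) = x}

/-- `S` is a numerical semigroup different from `ℕ`: its complement is finite and nonempty. -/
def IsNumerical (S : AddSubmonoid ℕ) : Prop := {m : ℕ | m ∉ S}.Finite ∧ S ≠ ⊤

/-- `M = S \ {0}`. -/
def maxIdeal (S : AddSubmonoid ℕ) : Set ℤ := intSet S \ {0}

/-- The embedding dimension: the number of minimal generators, that is, of elements of `M` which are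
not a sum of two elements of `M`. -/
noncomputable def embDim (S : AddSubmonoid ℕ) : ℕ :=
  {x : ℤ | x ∈ maxIdeal S ∧ ∀ y ∈ maxIdeal S, ∀ z ∈ maxIdeal S, x ≠ y + z}.ncard

/-- The Frobenius number: the largest integer outside `S`. -/
noncomputable def frobenius (S : AddSubmonoid ℕ) : ℤ := sSup {x : ℤ | x ∉ intSet S}

/-- The pseudo-Frobenius numbers. -/
def pseudoFrobenius (S : AddSubmonoid ℕ) : Set ℤ :=
  {x : ℤ | x ∉ intSet S ∧ ∀ m ∈ maxIdeal S, x + m ∈ intSet S}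

/-- The type: the number of pseudo-Frobenius numbers. -/
noncomputable def semigroupType (S : AddSubmonoid ℕ) : ℕ := (pseudoFrobenius S).ncard

/-- The standard canonical ideal `K = {x : F(S) - x ∉ S}`. -/
def canonicalIdeal (S : AddSubmonoid ℕ) : Set ℤ := {x : ℤ | frobenius S - x ∉ intSet S}

/-- `S` is almost symmetric: `K + M ⊆ M`. -/
def AlmostSymmetric (S : AddSubmonoid ℕ) : Prop :=
  canonicalIdeal S + maxIdeal S ⊆ maxIdeal S

/-- `S` is nearly Gorenstein: `M ⊆ K + (S - K)`, where `S - K = {z : z + K ⊆ S}`. -/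
def NearlyGorenstein (S : AddSubmonoid ℕ) : Prop :=
  maxIdeal S ⊆ canonicalIdeal S + {z : ℤ | ∀ y ∈ canonicalIdeal S, z + y ∈ intSet S}

/-! ### The proof -/

/-- `x` has a factorisation of length `d` in the semigroup generated by
`a, a + u, a + v, a + u + v`, where `a = 2k²+2`, `u = k-1`, `v = k+1`. -/
def InT (k d x : ℤ) : Prop :=
  ∃ i j : ℤ, 0 ≤ i ∧ i ≤ d ∧ 0 ≤ j ∧ j ≤ d ∧
    x = d * (2 * k ^ 2 + 2) + i * (k - 1) + j * (k + 1)

def X (k : ℤ) : ℤ := (2 * k - 2) * (2 * k ^ 2 + 2) + (k - 2) * (k - 1) + (2 * k - 1) * (k + 1)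

def f1 (k : ℤ) : ℤ := (k - 1) * (2 * k ^ 2 + 2) + k * (k - 1)
def f2 (k : ℤ) : ℤ := (k - 1) * (2 * k ^ 2 + 2) + (k - 1) * (k - 1) + k * (k + 1)

/-- every integer has a representative in an `L`-shaped region. -/
lemma exists_rep (n : ℤ) (hn : 1 ≤ n) (k : ℤ) (hk : k = 2 * n) (x : ℤ) :
    ∃ d i j : ℤ, x = d * (2 * k ^ 2 + 2) + i * (k - 1) + j * (k + 1) ∧
      ((0 ≤ i ∧ i ≤ k ∧ 0 ≤ j ∧ j ≤ k) ∨
        (k + 1 ≤ i ∧ i ≤ 2 * k - 1 ∧ 2 ≤ j ∧ j ≤ k)) := by
  have hk2 : 2 ≤ k := by omega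
  have ha : 0 < 2 * k ^ 2 + 2 := by positivity
  obtain ⟨d0, r, hr, hr0, hr1⟩ : ∃ d0 r : ℤ, x = d0 * (2 * k ^ 2 + 2) + r ∧ 0 ≤ r ∧
      r < 2 * k ^ 2 + 2 := by
    refine ⟨x / (2 * k ^ 2 + 2), x % (2 * k ^ 2 + 2), ?_, Int.emod_nonneg _ ha.ne',
      Int.emod_lt_of_pos _ ha⟩
    have := Int.emod_add_mul_ediv x (2 * k ^ 2 + 2)
    linarith [mul_comm (x / (2 * k ^ 2 + 2)) (2 * k ^ 2 + 2)]
  obtain ⟨s, δ, hs, hδ0, hδ1⟩ : ∃ s δ : ℤ, r = s * k + δ ∧ 0 ≤ δ ∧ δ < k := by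
    refine ⟨r / k, r % k, ?_, Int.emod_nonneg _ (by omega), Int.emod_lt_of_pos _ (by omega)⟩
    have := Int.emod_add_mul_ediv r k
    linarith [mul_comm (r / k) k]
  have hs0 : 0 ≤ s := by
    by_contra h
    have : s ≤ -1 := by omega
    nlinarith
  have hs1 : s ≤ 2 * k := by
    by_contra h
    have : 2 * k + 1 ≤ s := by omega
    nlinarith
  have hs2 : s = 2 * k → δ ≤ 1 := by
    intro h
    subst h
    nlinarith
  have hx : x = d0 * (2 * k ^ 2 + 2) + s * k + δ := by rw [hr, hs]; ring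
  rcases Int.emod_two_eq_zero_or_one (s - δ) with hpar | hpar
  · obtain ⟨i0, hi0⟩ : ∃ i0 : ℤ, s - δ = 2 * i0 := ⟨(s - δ) / 2, by omega⟩
    obtain ⟨j0, hj0⟩ : ∃ j0 : ℤ, s + δ = 2 * j0 := ⟨(s + δ) / 2, by omega⟩
    have es : s = i0 + j0 := by omega
    have ed : δ = j0 - i0 := by omega
    by_cases h1 : δ ≤ s
    · by_cases h2 : j0 ≤ k
      · exact ⟨d0, i0, j0, by rw [hx, es, ed]; ring, Or.inl (by omega)⟩
      · exact ⟨d0, i0 + k + 1, j0 - k + 1, by rw [hx, es, ed]; ring, Or.inr (by omega)⟩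
    · exact ⟨d0 - 1, i0 + 2 * k, j0 + 2, by rw [hx, es, ed]; ring, Or.inr (by omega)⟩
  · obtain ⟨i0, hi0⟩ : ∃ i0 : ℤ, s + 1 - (δ - k) = 2 * i0 := ⟨(s + 1 - (δ - k)) / 2, by omega⟩
    obtain ⟨j0, hj0⟩ : ∃ j0 : ℤ, s + 1 + (δ - k) = 2 * j0 := ⟨(s + 1 + (δ - k)) / 2, by omega⟩
    have es : s = i0 + j0 - 1 := by omega
    have ed : δ = j0 - i0 + k := by omega
    by_cases h1 : 0 ≤ j0
    · by_cases h2 : i0 ≤ k
      · exact ⟨d0, i0, j0, by rw [hx, es, ed]; ring, Or.inl (by omega)⟩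
      · by_cases h3 : 2 ≤ j0
        · exact ⟨d0, i0, j0, by rw [hx, es, ed]; ring, Or.inr (by omega)⟩
        · exact ⟨d0, i0 - k - 1, j0 + k - 1, by rw [hx, es, ed]; ring, Or.inl (by omega)⟩
    · by_cases h2 : 2 ≤ i0
      · exact ⟨d0 - 1, i0 + k - 1, j0 + k + 1, by rw [hx, es, ed]; ring, Or.inr (by omega)⟩
      · exact ⟨d0 - 1, i0 + k - 1, j0 + k + 1, by rw [hx, es, ed]; ring, Or.inl (by omega)⟩

/-- The covering property of `T`. -/
lemma covT (n : ℤ) (hn : 1 ≤ n) (k : ℤ) (hk : k = 2 * n) (x : ℤ) :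
    (∃ d, InT k d x) ∨ (∃ d, InT k d (X k - x)) ∨ x = f1 k ∨ x = f2 k := by
  obtain ⟨d, i, j, hx, h⟩ := exists_rep n hn k hk x
  have hk2 : 2 ≤ k := by omega
  rcases h with ⟨hi0, hi1, hj0, hj1⟩ | ⟨hi0, hi1, hj0, hj1⟩
  · by_cases h1 : i ≤ d ∧ j ≤ d
    · exact Or.inl ⟨d, i, j, by omega, by omega, by omega, by omega, hx⟩
    by_cases h2 : d < j ∧ i ≤ k - 2
    · exact Or.inr (Or.inl ⟨2 * k - 2 - d, k - 2 - i, 2 * k - 1 - j, by omega, by omega,
        by omega, by omega, by rw [hx, X]; ring⟩)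
    by_cases h3 : d < i ∧ ¬ (j = 0 ∧ d = k - 1)
    · exact Or.inr (Or.inl ⟨2 * k - 2 - d, 2 * k - 1 - i, k - j, by omega, by omega,
        by omega, by omega, by rw [hx, X]; ring⟩)
    by_cases h4 : d < i
    · have e1 : j = 0 := by omega
      have e2 : d = k - 1 := by omega
      have e3 : i = k := by omega
      exact Or.inr (Or.inr (Or.inl (by rw [hx, e1, e2, e3, f1]; ring)))
    · have e1 : j = k := by omega
      have e2 : d = k - 1 := by omega
      have e3 : i = k - 1 := by omega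
      exact Or.inr (Or.inr (Or.inr (by rw [hx, e1, e2, e3, f2])))
  · by_cases h1 : i ≤ d
    · exact Or.inl ⟨d, i, j, by omega, by omega, by omega, by omega, hx⟩
    by_cases h2 : j + k - 1 ≤ d
    · exact Or.inl ⟨d, i - k - 1, j + k - 1, by omega, by omega, by omega, by omega,
        by rw [hx]; ring⟩
    · exact Or.inr (Or.inl ⟨2 * k - 2 - d, 2 * k - 1 - i, k - j, by omega, by omega,
        by omega, by omega, by rw [hx, X]; ring⟩)


lemma InT.nonneg {k d x : ℤ} (h : InT k d x) : 0 ≤ d := by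
  obtain ⟨i, j, h1, h2, -⟩ := h; omega

lemma InT.lower {k d x : ℤ} (hk : 2 ≤ k) (h : InT k d x) : d * (2 * k ^ 2 + 2) ≤ x := by
  obtain ⟨i, j, h1, h2, h3, h4, rfl⟩ := h
  have := mul_nonneg h1 (show 0 ≤ k - 1 by omega)
  have := mul_nonneg h3 (show 0 ≤ k + 1 by omega)
  linarith

lemma InT.upper {k d x : ℤ} (hk : 2 ≤ k) (h : InT k d x) : x ≤ d * (2 * k ^ 2 + 2 * k + 2) := by
  obtain ⟨i, j, h1, h2, h3, h4, rfl⟩ := h
  have := mul_le_mul_of_nonneg_right h2 (show 0 ≤ k - 1 by omega)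
  have := mul_le_mul_of_nonneg_right h4 (show 0 ≤ k + 1 by omega)
  linarith

lemma not_InT_f1 (n : ℤ) (hn : 1 ≤ n) (k : ℤ) (hk : k = 2 * n) (d : ℤ) : ¬ InT k d (f1 k) := by
  intro h
  have hk2 : 2 ≤ k := by omega
  have hl := h.lower hk2
  have hu := h.upper hk2
  have hd0 := h.nonneg
  have h1 : d ≤ k - 1 := by
    by_contra h1
    have : k ≤ d := by omega
    have := mul_le_mul_of_nonneg_right this (show 0 ≤ 2 * k ^ 2 + 2 by positivity)
    rw [f1] at hl
    nlinarith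
  have h2 : k - 1 ≤ d := by
    by_contra h2
    have : d ≤ k - 2 := by omega
    have := mul_le_mul_of_nonneg_right this (show 0 ≤ 2 * k ^ 2 + 2 * k + 2 by positivity)
    rw [f1] at hu
    nlinarith
  obtain rfl : d = k - 1 := by omega
  obtain ⟨i, j, hi0, hi1, hj0, hj1, he⟩ := h
  rw [f1] at he
  have e : 2 * j = (k - 1) * (k - i - j) := by linarith
  obtain ⟨w, hw⟩ : ∃ w, w = k - i - j := ⟨_, rfl⟩
  rw [← hw] at e
  have w0 : 0 ≤ w := by
    by_contra hc
    have : w ≤ -1 := by omega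
    nlinarith
  have w1 : w ≤ 2 := by
    by_contra hc
    have : 3 ≤ w := by omega
    nlinarith
  interval_cases w
  · omega
  · omega
  · omega

lemma not_InT_f2 (n : ℤ) (hn : 1 ≤ n) (k : ℤ) (hk : k = 2 * n) (d : ℤ) : ¬ InT k d (f2 k) := by
  intro h
  have hk2 : 2 ≤ k := by omega
  have hl := h.lower hk2
  have hu := h.upper hk2
  have hd0 := h.nonneg
  have h1 : d ≤ k - 1 := by
    by_contra h1
    have : k ≤ d := by omega
    have := mul_le_mul_of_nonneg_right this (show 0 ≤ 2 * k ^ 2 + 2 by positivity)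
    rw [f2] at hl
    nlinarith
  have := mul_le_mul_of_nonneg_right h1 (show 0 ≤ 2 * k ^ 2 + 2 * k + 2 by positivity)
  rw [f2] at hu
  nlinarith

lemma not_InT_X (n : ℤ) (hn : 1 ≤ n) (k : ℤ) (hk : k = 2 * n) (d : ℤ) : ¬ InT k d (X k) := by
  intro h
  have hk2 : 2 ≤ k := by omega
  have hl := h.lower hk2
  have hu := h.upper hk2
  have hd0 := h.nonneg
  have h1 : d ≤ 2 * k - 1 := by
    by_contra h1
    have : 2 * k ≤ d := by omega
    have := mul_le_mul_of_nonneg_right this (show 0 ≤ 2 * k ^ 2 + 2 by positivity)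
    rw [X] at hl
    nlinarith
  have h2 : 2 * k - 2 ≤ d := by
    by_contra h2
    have : d ≤ 2 * k - 3 := by omega
    have := mul_le_mul_of_nonneg_right this (show 0 ≤ 2 * k ^ 2 + 2 * k + 2 by positivity)
    rw [X] at hu
    nlinarith
  obtain ⟨i, j, hi0, hi1, hj0, hj1, he⟩ := h
  rw [X] at he
  have hd : d = 2 * k - 2 ∨ d = 2 * k - 1 := by omega
  rcases hd with rfl | rfl
  · have e : 2 * (j - 1) = (k - 1) * (3 * k + 1 - i - j) := by linarith
    obtain ⟨w, hw⟩ : ∃ w, w = 3 * k + 1 - i - j := ⟨_, rfl⟩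
    rw [← hw] at e
    have w0 : -2 ≤ w := by
      by_contra hc
      have : w ≤ -3 := by omega
      nlinarith
    have w1 : w ≤ 3 := by
      by_contra hc
      have : 4 ≤ w := by omega
      nlinarith
    interval_cases w <;> omega
  · have e : 2 * (j + 1) = (k - 1) * (k - 1 - i - j) := by linarith
    obtain ⟨w, hw⟩ : ∃ w, w = k - 1 - i - j := ⟨_, rfl⟩
    rw [← hw] at e
    have w0 : 1 ≤ w := by
      by_contra hc
      have : w ≤ 0 := by omega
      nlinarith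
    have w1 : w ≤ 1 := by
      by_contra hc
      have : 2 ≤ w := by omega
      nlinarith
    obtain rfl : w = 1 := by omega
    omega

/-- membership in the semigroup `S_k`. -/
def InS (k z : ℤ) : Prop :=
  ∃ d x l : ℤ, InT k d x ∧ 0 ≤ l ∧ l ≤ d ∧ z = k * x + l * (k ^ 2 + 1)

def F (k : ℤ) : ℤ := k * X k + (k - 1) * (k ^ 2 + 1)

/-- The exceptional elements. -/
def Exc (k z : ℤ) : Prop :=
  ∃ l : ℤ, 0 ≤ l ∧ l ≤ k - 1 ∧ (z = k * f1 k + l * (k ^ 2 + 1) ∨ z = k * f2 k + l * (k ^ 2 + 1))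

lemma exists_coord (k : ℤ) (hk : 2 ≤ k) (z : ℤ) :
    ∃ x l : ℤ, 0 ≤ l ∧ l ≤ k - 1 ∧ z = k * x + l * (k ^ 2 + 1) := by
  refine ⟨z / k - k * (z % k), z % k, Int.emod_nonneg _ (by omega), ?_, ?_⟩
  · have := Int.emod_lt_of_pos z (show 0 < k by omega); omega
  · have := Int.emod_add_mul_ediv z k
    linear_combination -this

lemma covS (n : ℤ) (hn : 1 ≤ n) (k : ℤ) (hk : k = 2 * n) (z : ℤ) :
    InS k z ∨ InS k (F k - z) ∨ Exc k z := by
  have hk2 : 2 ≤ k := by omega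
  obtain ⟨x, l, hl0, hl1, hz⟩ := exists_coord k hk2 z
  rcases covT n hn k hk x with ⟨d, hd⟩ | ⟨d, hd⟩ | h | h
  · by_cases h1 : l ≤ d
    · exact Or.inl ⟨d, x, l, hd, hl0, h1, hz⟩
    · refine Or.inr (Or.inl ?_)
      obtain ⟨i, j, hi0, hi1, hj0, hj1, he⟩ := hd
      refine ⟨2 * k - 2 - d, X k - x - (k ^ 2 + 1), 2 * k - 1 - l, ?_, by omega, by omega, ?_⟩
      · exact ⟨k - 1 - i, k - 1 - j, by omega, by omega, by omega, by omega, by
          rw [he, X]; ring⟩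
      · rw [hz, F]; ring
  · by_cases h1 : k - 1 - l ≤ d
    · exact Or.inr (Or.inl ⟨d, X k - x, k - 1 - l, hd, by omega, h1, by rw [hz, F]; ring⟩)
    · refine Or.inl ?_
      obtain ⟨i, j, hi0, hi1, hj0, hj1, he⟩ := hd
      refine ⟨2 * k - 2 - d, x - (k ^ 2 + 1), l + k, ?_, by omega, by omega, ?_⟩
      · exact ⟨k - 1 - i, k - 1 - j, by omega, by omega, by omega, by omega, by
          have : x = X k - (d * (2 * k ^ 2 + 2) + i * (k - 1) + j * (k + 1)) := by linarith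
          rw [this, X]; ring⟩
      · rw [hz]; ring
  · exact Or.inr (Or.inr ⟨l, hl0, hl1, Or.inl (by rw [hz, h])⟩)
  · exact Or.inr (Or.inr ⟨l, hl0, hl1, Or.inr (by rw [hz, h])⟩)

lemma InS.coord {k : ℤ} (hk : 2 ≤ k) {y l : ℤ} (hl1 : l ≤ k - 1)
    (h : InS k (k * y + l * (k ^ 2 + 1))) :
    ∃ μ d : ℤ, 0 ≤ μ ∧ InT k d (y - μ * (k ^ 2 + 1)) ∧ l + k * μ ≤ d := by
  obtain ⟨d, x, l', hx, hl'0, hl'd, he⟩ := h
  obtain ⟨μ, hμ⟩ : ∃ μ, μ = y - x - (l' - l) * k := ⟨_, rfl⟩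
  have e1 : l' - l = k * μ := by rw [hμ]; linear_combination -he
  have e2 : y - μ * (k ^ 2 + 1) = x := by
    have : μ = y - x - k * μ * k := by rw [← e1]; exact hμ
    linear_combination -this
  refine ⟨μ, d, ?_, by rw [e2]; exact hx, by linarith⟩
  by_contra hc
  have : μ ≤ -1 := by omega
  nlinarith

lemma not_InS_of {k : ℤ} (hk : 2 ≤ k) {y l : ℤ} (hl0 : 0 ≤ l) (hl1 : l ≤ k - 1)
    (hy : ∀ d, ¬ InT k d y) (hb : y < k * (2 * k ^ 2 + 2)) :
    ¬ InS k (k * y + l * (k ^ 2 + 1)) := by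
  intro h
  obtain ⟨μ, d, hμ, hd, hld⟩ := h.coord hk hl1
  rcases eq_or_lt_of_le hμ with rfl | hμ
  · simp only [zero_mul, sub_zero] at hd
    exact hy d hd
  · have h1 := hd.lower hk
    have h2 : k ≤ d := by nlinarith
    have h3 := mul_le_mul_of_nonneg_right h2 (show 0 ≤ 2 * k ^ 2 + 2 by positivity)
    nlinarith [mul_pos hμ (show 0 < k ^ 2 + 1 by positivity)]

lemma not_InS_F (n : ℤ) (hn : 1 ≤ n) (k : ℤ) (hk : k = 2 * n) : ¬ InS k (F k) := by
  intro h
  have hk2 : 2 ≤ k := by omega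
  obtain ⟨μ, d, hμ, hd, hld⟩ := InS.coord (l := k - 1) hk2 le_rfl h
  rcases eq_or_lt_of_le hμ with rfl | hμ
  · simp only [zero_mul, sub_zero] at hd
    exact not_InT_X n hn k hk d hd
  · have h1 := hd.lower hk2
    have h2 : 2 * k - 1 ≤ d := by nlinarith
    have h3 := mul_le_mul_of_nonneg_right h2 (show 0 ≤ 2 * k ^ 2 + 2 by positivity)
    have h4 : k ^ 2 + 1 ≤ μ * (k ^ 2 + 1) := by nlinarith [sq_nonneg k]
    rw [X] at h1
    nlinarith

/-! ### The semigroup generated by `S_k` -/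

lemma InS.nonneg {k z : ℤ} (hk : 2 ≤ k) (h : InS k z) : 0 ≤ z := by
  obtain ⟨d, x, l, hx, hl0, hld, rfl⟩ := h
  have h1 := hx.lower hk
  have h2 := mul_nonneg hx.nonneg (show 0 ≤ 2 * k ^ 2 + 2 by positivity)
  have h3 := mul_nonneg hl0 (show 0 ≤ k ^ 2 + 1 by positivity)
  nlinarith

lemma InT.add {k d e x y : ℤ} (hx : InT k d x) (hy : InT k e y) : InT k (d + e) (x + y) := by
  obtain ⟨i, j, h1, h2, h3, h4, rfl⟩ := hx
  obtain ⟨i', j', h1', h2', h3', h4', rfl⟩ := hy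
  exact ⟨i + i', j + j', by omega, by omega, by omega, by omega, by ring⟩

lemma InS.add {k x y : ℤ} (hx : InS k x) (hy : InS k y) : InS k (x + y) := by
  obtain ⟨d, x, l, hx, hl0, hld, rfl⟩ := hx
  obtain ⟨d', x', l', hx', hl0', hld', rfl⟩ := hy
  exact ⟨d + d', x + x', l + l', hx.add hx', by omega, by omega, by ring⟩

lemma InS_zero (k : ℤ) : InS k 0 :=
  ⟨0, 0, 0, ⟨0, 0, by omega, by omega, by omega, by omega, by ring⟩, le_rfl, le_rfl, by ring⟩

/-- the eight generators -/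
def gen (k e1 e2 e3 : ℤ) : ℤ :=
  k * ((2 * k ^ 2 + 2) + e1 * (k - 1) + e2 * (k + 1)) + e3 * (k ^ 2 + 1)

/-- zero or one -/
def Bit (e : ℤ) : Prop := e = 0 ∨ e = 1

lemma InS_gen {k e1 e2 e3 : ℤ} (h1 : Bit e1) (h2 : Bit e2) (h3 : Bit e3) :
    InS k (gen k e1 e2 e3) := by
  refine ⟨1, (2 * k ^ 2 + 2) + e1 * (k - 1) + e2 * (k + 1), e3, ⟨e1, e2, ?_, ?_, ?_, ?_, by ring⟩,
    ?_, ?_, rfl⟩ <;> (unfold Bit at *; omega)

/-- Every nonzero element is a generator plus an element; the second element is the value of a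
factorisation with one factor less. -/
lemma InS.exists_gen {k z : ℤ} (h : InS k z) (hz : z ≠ 0) :
    ∃ e1 e2 e3 s : ℤ, Bit e1 ∧ Bit e2 ∧ Bit e3 ∧ InS k s ∧ z = gen k e1 e2 e3 + s := by
  obtain ⟨d, x, l, ⟨i, j, hi0, hi1, hj0, hj1, rfl⟩, hl0, hld, rfl⟩ := h
  have hd : 1 ≤ d := by
    by_contra hc
    obtain rfl : d = 0 := by omega
    obtain rfl : i = 0 := by omega
    obtain rfl : j = 0 := by omega
    obtain rfl : l = 0 := by omega
    exact hz (by ring)
  obtain ⟨e1, he1, hi⟩ : ∃ e, Bit e ∧ 0 ≤ i - e ∧ i - e ≤ d - 1 := by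
    by_cases h : i = d
    · exact ⟨1, Or.inr rfl, by omega⟩
    · exact ⟨0, Or.inl rfl, by omega⟩
  obtain ⟨e2, he2, hj⟩ : ∃ e, Bit e ∧ 0 ≤ j - e ∧ j - e ≤ d - 1 := by
    by_cases h : j = d
    · exact ⟨1, Or.inr rfl, by omega⟩
    · exact ⟨0, Or.inl rfl, by omega⟩
  obtain ⟨e3, he3, hl⟩ : ∃ e, Bit e ∧ 0 ≤ l - e ∧ l - e ≤ d - 1 := by
    by_cases h : l = d
    · exact ⟨1, Or.inr rfl, by omega⟩
    · exact ⟨0, Or.inl rfl, by omega⟩
  exact ⟨e1, e2, e3, _, he1, he2, he3, ⟨d - 1, _, l - e3, ⟨i - e1, j - e2, hi.1, hi.2, hj.1, hj.2,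
    rfl⟩, hl.1, hl.2, rfl⟩, by rw [gen]; ring⟩

lemma gen_bounds {k e1 e2 e3 : ℤ} (hk : 2 ≤ k) (h1 : Bit e1) (h2 : Bit e2) (h3 : Bit e3) :
    2 * k ^ 3 + 2 * k ≤ gen k e1 e2 e3 ∧ gen k e1 e2 e3 < 2 * (2 * k ^ 3 + 2 * k) := by
  have hk3 : 2 * k ^ 2 ≤ k ^ 3 := by nlinarith [sq_nonneg k]
  have hk2 : 2 * k ≤ k ^ 2 := by nlinarith
  rcases h1 with rfl | rfl <;> rcases h2 with rfl | rfl <;> rcases h3 with rfl | rfl <;>
    (unfold gen; constructor <;> nlinarith)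

lemma T_add_gen1 {k e1 e2 : ℤ} (hk : 2 ≤ k) (h1 : Bit e1) (h2 : Bit e2) :
    InT k k (f1 k + ((2 * k ^ 2 + 2) + e1 * (k - 1) + e2 * (k + 1))) := by
  rcases h1 with rfl | rfl <;> rcases h2 with rfl | rfl
  · exact ⟨k, 0, by omega, by omega, by omega, by omega, by rw [f1]; ring⟩
  · exact ⟨k, 1, by omega, by omega, by omega, by omega, by rw [f1]; ring⟩
  · exact ⟨0, k - 1, by omega, by omega, by omega, by omega, by rw [f1]; ring⟩
  · exact ⟨0, k, by omega, by omega, by omega, by omega, by rw [f1]; ring⟩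

lemma T_add_gen2 {k e1 e2 : ℤ} (hk : 2 ≤ k) (h1 : Bit e1) (h2 : Bit e2) :
    ∃ d, k ≤ d ∧ InT k d (f2 k + ((2 * k ^ 2 + 2) + e1 * (k - 1) + e2 * (k + 1))) := by
  rcases h1 with rfl | rfl <;> rcases h2 with rfl | rfl
  · exact ⟨k, le_rfl, k - 1, k, by omega, by omega, by omega, by omega, by rw [f2]; ring⟩
  · exact ⟨k + 1, by omega, 0, 0, by omega, by omega, by omega, by omega, by rw [f2]; ring⟩
  · exact ⟨k, le_rfl, k, k, by omega, by omega, by omega, by omega, by rw [f2]; ring⟩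
  · exact ⟨k + 1, by omega, 1, 0, by omega, by omega, by omega, by omega, by rw [f2]; ring⟩

lemma Exc.add_gen {k z e1 e2 e3 : ℤ} (hk : 2 ≤ k) (h : Exc k z) (h1 : Bit e1) (h2 : Bit e2)
    (h3 : Bit e3) : InS k (z + gen k e1 e2 e3) := by
  obtain ⟨l, hl0, hl1, rfl | rfl⟩ := h
  · refine ⟨k, _, l + e3, T_add_gen1 hk h1 h2, ?_, ?_, by rw [gen]; ring⟩ <;>
      (unfold Bit at *; omega)
  · obtain ⟨d, hd, hT⟩ := T_add_gen2 hk h1 h2
    refine ⟨d, _, l + e3, hT, ?_, ?_, by rw [gen]; ring⟩ <;> (unfold Bit at *; omega)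

lemma Exc.add {k z m : ℤ} (hk : 2 ≤ k) (h : Exc k z) (hm : InS k m) (hm0 : m ≠ 0) :
    InS k (z + m) := by
  obtain ⟨e1, e2, e3, s, h1, h2, h3, hs, rfl⟩ := hm.exists_gen hm0
  rw [← add_assoc]
  exact (h.add_gen hk h1 h2 h3).add hs

lemma Exc.not_InS {n k z : ℤ} (hn : 1 ≤ n) (hk : k = 2 * n) (h : Exc k z) : ¬ InS k z := by
  have hk2 : 2 ≤ k := by omega
  obtain ⟨l, hl0, hl1, rfl | rfl⟩ := h
  · refine not_InS_of hk2 hl0 hl1 (not_InT_f1 n hn k hk) ?_
    rw [f1]; nlinarith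
  · refine not_InS_of hk2 hl0 hl1 (not_InT_f2 n hn k hk) ?_
    rw [f2]; nlinarith

lemma Exc.pos {k z : ℤ} (hk : 2 ≤ k) (h : Exc k z) : 0 < z := by
  obtain ⟨l, hl0, hl1, rfl | rfl⟩ := h
  · have h1 : 0 < f1 k := by rw [f1]; nlinarith [mul_pos (show 0 < k - 1 by omega) (show 0 < 2 * k ^ 2 + 2 by positivity)]
    have h3 := mul_nonneg hl0 (show 0 ≤ k ^ 2 + 1 by positivity)
    have h4 := mul_pos (show 0 < k by omega) h1
    linarith
  · have h1 : 0 < f2 k := by rw [f2]; nlinarith [mul_pos (show 0 < k - 1 by omega) (show 0 < 2 * k ^ 2 + 2 by positivity)]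
    have h3 := mul_nonneg hl0 (show 0 ≤ k ^ 2 + 1 by positivity)
    have h4 := mul_pos (show 0 < k by omega) h1
    linarith

lemma f1_lt_f2 {k : ℤ} (hk : 2 ≤ k) : f1 k < f2 k := by
  rw [f1, f2]; nlinarith

lemma f2_lt_X {k : ℤ} (hk : 2 ≤ k) : f2 k < X k := by
  rw [X, f2]
  have := mul_pos (show 0 < k - 1 by omega) (show 0 < 2 * k ^ 2 + 2 by positivity)
  nlinarith

lemma Exc.lt_F {k z : ℤ} (hk : 2 ≤ k) (h : Exc k z) : z < F k := by
  have h1 := f1_lt_f2 hk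
  have h2 := f2_lt_X hk
  obtain ⟨l, hl0, hl1, rfl | rfl⟩ := h
  · rw [F]
    have h3 := mul_le_mul_of_nonneg_right hl1 (show 0 ≤ k ^ 2 + 1 by positivity)
    have h4 := mul_lt_mul_of_pos_left (h1.trans h2) (show 0 < k by omega)
    linarith
  · rw [F]
    have h3 := mul_le_mul_of_nonneg_right hl1 (show 0 ≤ k ^ 2 + 1 by positivity)
    have h4 := mul_lt_mul_of_pos_left h2 (show 0 < k by omega)
    linarith

lemma InS_of_gt {n k z : ℤ} (hn : 1 ≤ n) (hk : k = 2 * n) (hz : F k < z) : InS k z := by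
  have hk2 : 2 ≤ k := by omega
  rcases covS n hn k hk z with h | h | h
  · exact h
  · have := h.nonneg hk2; omega
  · have := h.lt_F hk2; omega


/-- The numerical semigroup `S_k`. -/
def Sk (k : ℤ) : AddSubmonoid ℕ where
  carrier := {m : ℕ | InS k (m : ℤ)}
  zero_mem' := by
    have := InS_zero k
    simpa using this
  add_mem' := by
    intro a b ha hb
    have h : InS k ((a : ℤ) + (b : ℤ)) := InS.add ha hb
    have e : ((a + b : ℕ) : ℤ) = (a : ℤ) + (b : ℤ) := by push_cast; ring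
    change InS k ((a + b : ℕ) : ℤ)
    rw [e]; exact h

lemma mem_Sk {k : ℤ} {m : ℕ} : m ∈ Sk k ↔ InS k (m : ℤ) := Iff.rfl

lemma mem_intSet {k : ℤ} (hk : 2 ≤ k) {x : ℤ} : x ∈ intSet (Sk k) ↔ InS k x := by
  constructor
  · rintro ⟨m, hm, rfl⟩; exact hm
  · intro h
    have h0 := h.nonneg hk
    refine ⟨x.toNat, ?_, Int.toNat_of_nonneg h0⟩
    rw [mem_Sk, Int.toNat_of_nonneg h0]; exact h

lemma mem_maxIdeal {k : ℤ} (hk : 2 ≤ k) {x : ℤ} : x ∈ maxIdeal (Sk k) ↔ InS k x ∧ x ≠ 0 := by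
  unfold maxIdeal
  rw [Set.mem_sdiff, mem_intSet hk, Set.mem_singleton_iff]

lemma lower_of_mem {k x : ℤ} (hk : 2 ≤ k) (h : InS k x) (h0 : x ≠ 0) : 2 * k ^ 3 + 2 * k ≤ x := by
  obtain ⟨e1, e2, e3, s, h1, h2, h3, hs, rfl⟩ := h.exists_gen h0
  have := (gen_bounds hk h1 h2 h3).1
  have := hs.nonneg hk
  linarith

lemma frobenius_Sk {n k : ℤ} (hn : 1 ≤ n) (hk : k = 2 * n) : frobenius (Sk k) = F k := by
  have hk2 : 2 ≤ k := by omega
  have h : IsGreatest {x : ℤ | x ∉ intSet (Sk k)} (F k) := by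
    constructor
    · change F k ∉ intSet (Sk k)
      rw [mem_intSet hk2]; exact not_InS_F n hn k hk
    · intro x hx
      change x ∉ intSet (Sk k) at hx
      rw [mem_intSet hk2] at hx
      by_contra hc
      exact hx (InS_of_gt hn hk (by omega))
  exact h.csSup_eq

lemma mem_pseudoFrobenius {n k : ℤ} (hn : 1 ≤ n) (hk : k = 2 * n) {x : ℤ} :
    x ∈ pseudoFrobenius (Sk k) ↔ Exc k x ∨ x = F k := by
  have hk2 : 2 ≤ k := by omega
  constructor
  · rintro ⟨h1, h2⟩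
    rw [mem_intSet hk2] at h1
    rcases covS n hn k hk x with h | h | h
    · exact absurd h h1
    · right
      by_contra hc
      have := h2 (F k - x) ((mem_maxIdeal hk2).2 ⟨h, by omega⟩)
      rw [mem_intSet hk2, add_sub_cancel] at this
      exact not_InS_F n hn k hk this
    · exact Or.inl h
  · rintro (h | rfl)
    · refine ⟨by rw [mem_intSet hk2]; exact h.not_InS hn hk, ?_⟩
      intro m hm
      rw [mem_maxIdeal hk2] at hm
      rw [mem_intSet hk2]
      exact h.add hk2 hm.1 hm.2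
    · refine ⟨by rw [mem_intSet hk2]; exact not_InS_F n hn k hk, ?_⟩
      intro m hm
      rw [mem_maxIdeal hk2] at hm
      rw [mem_intSet hk2]
      have := hm.1.nonneg hk2
      have := hm.2
      exact InS_of_gt hn hk (by omega)

lemma mem_canonicalIdeal {n k : ℤ} (hn : 1 ≤ n) (hk : k = 2 * n) {x : ℤ}
    (hx : x ∈ canonicalIdeal (Sk k)) : InS k x ∨ Exc k x := by
  have hk2 : 2 ≤ k := by omega
  unfold canonicalIdeal at hx
  have hx' : frobenius (Sk k) - x ∉ intSet (Sk k) := hx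
  rw [frobenius_Sk hn hk, mem_intSet hk2] at hx'
  rcases covS n hn k hk x with h | h | h
  · exact Or.inl h
  · exact absurd h hx'
  · exact Or.inr h

lemma almostSymmetric_Sk {n k : ℤ} (hn : 1 ≤ n) (hk : k = 2 * n) : AlmostSymmetric (Sk k) := by
  have hk2 : 2 ≤ k := by omega
  rintro _ ⟨x, hx, m, hm, rfl⟩
  rw [mem_maxIdeal hk2] at hm
  have hm0 := hm.1.nonneg hk2
  have hm1 := hm.2
  change x + m ∈ maxIdeal (Sk k)
  rw [mem_maxIdeal hk2]
  rcases mem_canonicalIdeal hn hk hx with h | h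
  · have := h.nonneg hk2
    exact ⟨h.add hm.1, by omega⟩
  · have := h.pos hk2
    exact ⟨h.add hk2 hm.1 hm.2, by omega⟩

lemma nearlyGorenstein_Sk {n k : ℤ} (hn : 1 ≤ n) (hk : k = 2 * n) : NearlyGorenstein (Sk k) := by
  have hk2 : 2 ≤ k := by omega
  intro m hm
  refine ⟨0, ?_, m, ?_, zero_add m⟩
  · change frobenius (Sk k) - 0 ∉ intSet (Sk k)
    rw [frobenius_Sk hn hk, sub_zero, mem_intSet hk2]
    exact not_InS_F n hn k hk
  · intro y hy
    have := almostSymmetric_Sk hn hk ⟨y, hy, m, hm, rfl⟩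
    rw [add_comm]
    exact this.1

/-- The exceptional elements together with the Frobenius number, as a finite set. -/
def pfFinset (k : ℤ) (N : ℕ) : Finset ℤ :=
  ((Finset.range N).image (fun l : ℕ => k * f1 k + (l : ℤ) * (k ^ 2 + 1)) ∪
    (Finset.range N).image (fun l : ℕ => k * f2 k + (l : ℤ) * (k ^ 2 + 1))) ∪ {F k}

lemma coord_unique {k y y' l l' : ℤ} (hk : 2 ≤ k) (hl0 : 0 ≤ l) (hl1 : l ≤ k - 1)
    (hl0' : 0 ≤ l') (hl1' : l' ≤ k - 1)
    (h : k * y + l * (k ^ 2 + 1) = k * y' + l' * (k ^ 2 + 1)) : y = y' ∧ l = l' := by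
  obtain ⟨w, hw⟩ : ∃ w, w = y' - y + (l' - l) * k := ⟨_, rfl⟩
  have e1 : l - l' = k * w := by rw [hw]; linear_combination h
  have hw0 : w = 0 := by
    have h1 : w < 1 := by
      by_contra hc
      have : 1 ≤ w := by omega
      nlinarith
    have h2 : -1 < w := by
      by_contra hc
      have : w ≤ -1 := by omega
      nlinarith
    omega
  have e2 : l = l' := by rw [hw0] at e1; omega
  subst e2
  have e3 : k * y = k * y' := by linarith
  exact ⟨mul_left_cancel₀ (by omega) e3, rfl⟩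

lemma card_pfFinset {n : ℕ} (hn : 1 ≤ n) :
    (pfFinset (2 * (n : ℤ)) (2 * n)).card = 4 * n + 1 := by
  obtain ⟨k, hk⟩ : ∃ k : ℤ, k = 2 * (n : ℤ) := ⟨_, rfl⟩
  rw [← hk]
  have hn' : (1 : ℤ) ≤ n := by exact_mod_cast hn
  have hk2 : 2 ≤ k := by omega
  have hr : ∀ l ∈ Finset.range (2 * n), (0 : ℤ) ≤ l ∧ (l : ℤ) ≤ k - 1 := by
    intro l hl
    rw [Finset.mem_range] at hl
    omega
  have c1 : ∀ y : ℤ, ((Finset.range (2 * n)).image
      (fun l : ℕ => k * y + (l : ℤ) * (k ^ 2 + 1))).card = 2 * n := by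
    intro y
    rw [Finset.card_image_of_injOn, Finset.card_range]
    intro l hl l' hl' h
    have h1 := hr l hl
    have h2 := hr l' hl'
    have := (coord_unique hk2 h1.1 h1.2 h2.1 h2.2 h).2
    exact_mod_cast this
  unfold pfFinset
  rw [Finset.card_union_of_disjoint, Finset.card_union_of_disjoint, c1, c1,
    Finset.card_singleton]
  · omega
  · rw [Finset.disjoint_left]
    intro x hx hx'
    rw [Finset.mem_image] at hx hx'
    obtain ⟨l, hl, rfl⟩ := hx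
    obtain ⟨l', hl', he⟩ := hx'
    have h1 := hr l hl
    have h2 := hr l' hl'
    have := (coord_unique hk2 h2.1 h2.2 h1.1 h1.2 he).1
    have := f1_lt_f2 hk2
    omega
  · rw [Finset.disjoint_singleton_right]
    intro hx
    rw [Finset.mem_union, Finset.mem_image, Finset.mem_image] at hx
    have : Exc k (F k) := by
      rcases hx with ⟨l, hl, he⟩ | ⟨l, hl, he⟩
      · exact ⟨l, (hr l hl).1, (hr l hl).2, Or.inl he.symm⟩
      · exact ⟨l, (hr l hl).1, (hr l hl).2, Or.inr he.symm⟩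
    exact absurd (this.lt_F hk2) (lt_irrefl _)

lemma type_Sk {n : ℕ} (hn : 1 ≤ n) : semigroupType (Sk (2 * (n : ℤ))) = 4 * n + 1 := by
  obtain ⟨k, hk⟩ : ∃ k : ℤ, k = 2 * (n : ℤ) := ⟨_, rfl⟩
  have hn' : (1 : ℤ) ≤ n := by exact_mod_cast hn
  have hk2 : 2 ≤ k := by omega
  have hset : pseudoFrobenius (Sk k) = (pfFinset k (2 * n) : Set ℤ) := by
    ext x
    rw [mem_pseudoFrobenius hn' hk, Finset.mem_coe, pfFinset, Finset.mem_union, Finset.mem_union,
      Finset.mem_image, Finset.mem_image, Finset.mem_singleton]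
    constructor
    · rintro (⟨l, h0, h1, h | h⟩ | h)
      · refine Or.inl (Or.inl ⟨l.toNat, ?_, ?_⟩)
        · rw [Finset.mem_range]; omega
        · rw [Int.toNat_of_nonneg h0]; exact h.symm
      · refine Or.inl (Or.inr ⟨l.toNat, ?_, ?_⟩)
        · rw [Finset.mem_range]; omega
        · rw [Int.toNat_of_nonneg h0]; exact h.symm
      · exact Or.inr h
    · rintro ((⟨l, hl, h⟩ | ⟨l, hl, h⟩) | h)
      · rw [Finset.mem_range] at hl
        exact Or.inl ⟨l, by omega, by omega, Or.inl h.symm⟩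
      · rw [Finset.mem_range] at hl
        exact Or.inl ⟨l, by omega, by omega, Or.inr h.symm⟩
      · exact Or.inr h
  rw [← hk]
  unfold semigroupType
  rw [hset, Set.ncard_coe_finset, hk]
  exact card_pfFinset hn

/-- The eight generators as a finite set. -/
def genFinset (k : ℤ) : Finset ℤ :=
  (({0, 1} : Finset ℤ) ×ˢ (({0, 1} : Finset ℤ) ×ˢ ({0, 1} : Finset ℤ))).image
    (fun e => gen k e.1 e.2.1 e.2.2)

lemma gen_injective {k e1 e2 e3 e1' e2' e3' : ℤ} (hk : 2 ≤ k) (h1 : Bit e1) (h2 : Bit e2)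
    (h3 : Bit e3) (h1' : Bit e1') (h2' : Bit e2') (h3' : Bit e3')
    (h : gen k e1 e2 e3 = gen k e1' e2' e3') : e1 = e1' ∧ e2 = e2' ∧ e3 = e3' := by
  have hK : 2 * k ≤ k ^ 2 := by nlinarith
  have e : (e1 - e1') * (k ^ 2 - k) + (e2 - e2') * (k ^ 2 + k) + (e3 - e3') * (k ^ 2 + 1) = 0 := by
    unfold gen at h; linear_combination h
  generalize k ^ 2 = K at hK e
  rcases h1 with rfl | rfl <;> rcases h2 with rfl | rfl <;> rcases h3 with rfl | rfl <;>
    rcases h1' with rfl | rfl <;> rcases h2' with rfl | rfl <;> rcases h3' with rfl | rfl <;>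
    omega

lemma card_genFinset {k : ℤ} (hk : 2 ≤ k) : (genFinset k).card = 8 := by
  unfold genFinset
  rw [Finset.card_image_of_injOn]
  · rfl
  · rintro ⟨a, b, c⟩ h ⟨a', b', c'⟩ h' he
    simp only [Finset.coe_product, Set.mem_prod, Finset.mem_coe, Finset.mem_insert,
      Finset.mem_singleton] at h h'
    obtain ⟨r1, r2, r3⟩ := gen_injective hk h.1 h.2.1 h.2.2 h'.1 h'.2.1 h'.2.2 he
    rw [r1, r2, r3]

lemma embDim_Sk {k : ℤ} (hk : 2 ≤ k) : embDim (Sk k) = 8 := by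
  have hset : {x : ℤ | x ∈ maxIdeal (Sk k) ∧ ∀ y ∈ maxIdeal (Sk k), ∀ z ∈ maxIdeal (Sk k),
      x ≠ y + z} = (genFinset k : Set ℤ) := by
    ext x
    rw [Finset.mem_coe, genFinset, Finset.mem_image]
    change (x ∈ maxIdeal (Sk k) ∧ ∀ y ∈ maxIdeal (Sk k), ∀ z ∈ maxIdeal (Sk k), x ≠ y + z) ↔ _
    rw [mem_maxIdeal hk]
    constructor
    · rintro ⟨⟨hx, hx0⟩, hmin⟩
      obtain ⟨e1, e2, e3, s, h1, h2, h3, hs, rfl⟩ := hx.exists_gen hx0
      have hs0 : s = 0 := by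
        by_contra hs0
        refine hmin (gen k e1 e2 e3) ?_ s ?_ rfl
        · rw [mem_maxIdeal hk]
          refine ⟨InS_gen h1 h2 h3, ?_⟩
          have := (gen_bounds hk h1 h2 h3).1
          have : 0 < 2 * k ^ 3 + 2 * k := by positivity
          omega
        · rw [mem_maxIdeal hk]; exact ⟨hs, hs0⟩
      subst hs0
      refine ⟨(e1, e2, e3), ?_, by simp⟩
      simp only [Finset.mem_product, Finset.mem_insert, Finset.mem_singleton]
      exact ⟨h1, h2, h3⟩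
    · rintro ⟨⟨e1, e2, e3⟩, he, rfl⟩
      simp only [Finset.mem_product, Finset.mem_insert, Finset.mem_singleton] at he
      obtain ⟨h1, h2, h3⟩ := he
      have hb := gen_bounds hk h1 h2 h3
      have hpos : 0 < 2 * k ^ 3 + 2 * k := by positivity
      refine ⟨⟨InS_gen h1 h2 h3, by simp only; omega⟩, ?_⟩
      intro y hy z hz hyz
      rw [mem_maxIdeal hk] at hy hz
      have := lower_of_mem hk hy.1 hy.2
      have := lower_of_mem hk hz.1 hz.2
      simp only at hyz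
      omega
  unfold embDim
  rw [hset, Set.ncard_coe_finset]
  exact card_genFinset hk

lemma isNumerical_Sk {n k : ℤ} (hn : 1 ≤ n) (hk : k = 2 * n) : IsNumerical (Sk k) := by
  have hk2 : 2 ≤ k := by omega
  constructor
  · refine (Set.finite_Iic (F k).toNat).subset ?_
    intro m hm
    change m ≤ (F k).toNat
    by_contra hc
    refine hm ?_
    rw [mem_Sk]
    exact InS_of_gt hn hk (by omega)
  · intro h
    have h1 : (1 : ℕ) ∈ Sk k := by rw [h]; trivial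
    rw [mem_Sk] at h1
    have := lower_of_mem hk2 h1 (by norm_num)
    have h3 : 0 < k ^ 3 := by positivity
    push_cast at this
    omega

/-- For every `n ≥ 1` there is an almost symmetric (hence nearly Gorenstein) numerical semigroup
with embedding dimension `8` and type `4 n + 1`.  In particular the type of almost symmetric
numerical semigroups is not bounded by a function of the embedding dimension, and the same holds for
nearly Gorenstein numerical semigroups. -/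
theorem result (n : ℕ) (hn : 1 ≤ n) :
    ∃ S : AddSubmonoid ℕ, IsNumerical S ∧ AlmostSymmetric S ∧ NearlyGorenstein S ∧
      embDim S = 8 ∧ semigroupType S = 4 * n + 1 := by
  have hn' : (1 : ℤ) ≤ n := by exact_mod_cast hn
  have hk2 : (2 : ℤ) ≤ 2 * (n : ℤ) := by omega
  exact ⟨Sk (2 * (n : ℤ)), isNumerical_Sk hn' rfl, almostSymmetric_Sk hn' rfl,
    nearlyGorenstein_Sk hn' rfl, embDim_Sk hk2, type_Sk hn⟩

end Pool.Agent.Results.MP_9b7a67_al.UnboundedTypeEightGenerators
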